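import Pool.Agent.Lib.MP_1599f7_gt.Gamma
import Pool.Agent.Lib.MP_1599f7_gt.Line
import Pool.Agent.Lib.MP_1599f7_gt.ZeroDim

namespace Pool.Agent.Results.MP_1599f7_gt.LusinGamma

open Pool.Agent.Lib.MP_1599f7_gt

/-- If there is a Suslin line, then there is a zero-dimensional Lusin space which is a
gamma-space. Since the existence of a Suslin line is consistent with ZFC, ZFC does not prove
that no Lusin space is a gamma-space. -/
theorem result
    (hS : ∃ (L : Type) (_ : LinearOrder L) (_ : TopologicalSpace L) (_ : OrderTopology L),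
      IsSuslinLine L) :
    ∃ (X : Type) (_ : TopologicalSpace X),
      IsLusinSpace X ∧ IsGammaSpace X ∧
        TopologicalSpace.IsTopologicalBasis {s : Set X | IsClopen s} := by
  obtain ⟨L, i1, i2, i3, hL⟩ := hS
  obtain ⟨T, iT, ρ, h⟩ := exists_suslinTree hL
  exact ⟨LimPath T ρ, inferInstance, lusin h, gamma h, clopen_basis⟩

end Pool.Agent.Results.MP_1599f7_gt.LusinGamma
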